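import Pool.Agent.R80.HL.Main

/-!
# A weighted sum of Hall-Littlewood functions at `t = -1`

`L = log w(x;-1) + ...` lies in `Q[[p_1, p_3, p_5, ...]]`.
-/

set_option autoImplicit false
set_option linter.style.longLine false

namespace Pool.Agent.Results.MP_f6dccc_co.HallLittlewoodMinusOne
open Finset PowerSeries

/-- The coefficient ring `ℚ[a,b,c,d]`. -/
abbrev Coef := MvPolynomial (Fin 4) ℚ

/-- The indeterminates `a, b, c, d`. -/
noncomputable def a : Coef := MvPolynomial.X 0
noncomputable def b : Coef := MvPolynomial.X 1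
noncomputable def c : Coef := MvPolynomial.X 2
noncomputable def d : Coef := MvPolynomial.X 3

/-- The field of rational functions in `x_1, ..., x_n` over `ℚ[a,b,c,d]`. -/
abbrev K (n : ℕ) := FractionRing (MvPolynomial (Fin n) Coef)

/-- The variables `x_1, ..., x_n`. -/
noncomputable def x (n : ℕ) (i : Fin n) : K n :=
  algebraMap (MvPolynomial (Fin n) Coef) (K n) (MvPolynomial.X i)

/-- The power sum `p_k(x_1, ..., x_n)`. -/
noncomputable def p (n k : ℕ) : K n := ∑ i, x n i ^ k

/-- The exponent vectors `(α_1, ..., α_n)` that are rearrangements of the partition `lam`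
(filled up with zeros); there is none when `lam` has more than `n` parts. -/
def arrangements (n : ℕ) {m : ℕ} (lam : Nat.Partition m) : Finset (Fin n → ℕ) :=
  (Finset.Nat.antidiagonalTuple n m).filter
    (fun α => ((Finset.univ : Finset (Fin n)).val.map α).filter (fun k => k ≠ 0) = lam.parts)

/-- The Hall-Littlewood polynomial `P_lam(x_1, ..., x_n; t)`, by Macdonald's formula (III.2.2):
the sum over the distinct rearrangements `α` of `lam` of
`x^α ∏_{α_i > α_j} (x_i - t x_j) / (x_i - x_j)`. -/
noncomputable def HL (n : ℕ) {m : ℕ} (lam : Nat.Partition m) (t : K n) : K n :=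
  ∑ α ∈ arrangements n lam, (∏ i, x n i ^ α i) *
    ∏ i, ∏ j, if α j < α i then (x n i - t * x n j) / (x n i - x n j) else 1

/-- The product of the entries when the rows of lengths `k_1, k_2, ...` are filled, the
odd-numbered rows with `a, b, a, b, ...` and the even-numbered rows with `c, d, c, d, ...`. -/
noncomputable def rowWeight : Coef → Coef → Coef → Coef → List ℕ → Coef
  | _, _, _, _, [] => 1
  | a, b, c, d, (k :: l) => a ^ ((k + 1) / 2) * b ^ (k / 2) * rowWeight c d a b l

/-- `ω(lam)`. -/
noncomputable def omega {m : ℕ} (lam : Nat.Partition m) : Coef :=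
  rowWeight a b c d (lam.parts.sort (· ≥ ·))

/-- `w(x_1, ..., x_n; -1)`; the coefficient of the formal variable to the power `m` is the
homogeneous component of degree `m`. -/
noncomputable def w (n : ℕ) : (K n)⟦X⟧ :=
  PowerSeries.mk fun m => ∑ lam : Nat.Partition m, algebraMap Coef (K n) (omega lam) * HL n lam (-1)

/-- The coefficient of `p_{2k}` in the correction term, `k ≥ 1`. -/
noncomputable def corrCoeff (k : ℕ) : Coef :=
  if Odd k then algebraMap ℚ Coef (1 / (2 * k)) * (a ^ k * c ^ k)
  else algebraMap ℚ Coef (1 / (2 * k)) *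
    (a ^ (k / 2) * c ^ (k / 2) * (a ^ (k / 2) * c ^ (k / 2) - 2 * (b ^ (k / 2) * d ^ (k / 2))))

/-- The correction term `∑_{k ≥ 1} corrCoeff k * p_{2k}`, graded by degree. -/
noncomputable def corr (n : ℕ) : (K n)⟦X⟧ :=
  PowerSeries.mk fun m =>
    if Even m ∧ m ≠ 0 then algebraMap Coef (K n) (corrCoeff (m / 2)) * p n m else 0

/-- `L = log w(x;-1) + correction` in `n` variables, graded by degree. -/
noncomputable def L (n : ℕ) : (K n)⟦X⟧ := PowerSeries.logOf (w n) + corr n


theorem rowWeight_eq : ∀ (l : List ℕ) (a b c d : Coef), rowWeight a b c d l = R80HL.om a b c d l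
  | [], _, _, _, _ => rfl
  | k :: l, a, b, c, d => by
    rw [rowWeight, R80HL.om, rowWeight_eq l c d a b]

theorem om_filter : ∀ (l : List ℕ), l.Pairwise (· ≥ ·) → ∀ a b c d : Coef,
    R80HL.om a b c d (l.filter (fun k => k ≠ 0)) = R80HL.om a b c d l
  | [], _, _, _, _, _ => rfl
  | k :: l, h, a, b, c, d => by
    rw [List.pairwise_cons] at h
    by_cases hk : k = 0
    · subst hk
      have hz : ∀ x ∈ l, x = 0 := fun x hx => by have := h.1 x hx; omega
      have h1 : (0 :: l).filter (fun k => k ≠ 0) = [] := by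
        rw [List.filter_eq_nil_iff]
        intro x hx
        rcases List.mem_cons.1 hx with h2 | h2
        · simp [h2]
        · simp [hz x h2]
      rw [h1]
      symm
      apply R80HL.om_zeros
      intro x hx
      rcases List.mem_cons.1 hx with h2 | h2
      · exact h2
      · exact hz x h2
    · rw [List.filter_cons_of_pos (by simp [hk]), R80HL.om, R80HL.om, om_filter l h.2]

theorem omega_eq {n m : ℕ} (lam : Nat.Partition m) (α : Fin n → ℕ)
    (h : ((Finset.univ : Finset (Fin n)).val.map α).filter (fun k => k ≠ 0) = lam.parts) :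
    omega lam = R80HL.omF a b c d α := by
  unfold omega R80HL.omF
  rw [rowWeight_eq, ← om_filter _ (List.pairwise_insertionSort (· ≥ ·) (List.ofFn α))]
  congr 1
  apply List.Perm.eq_of_pairwise' (Multiset.pairwise_sort _ _)
    ((List.pairwise_insertionSort (· ≥ ·) (List.ofFn α)).filter _)
  rw [← Multiset.coe_eq_coe, Multiset.sort_eq, ← h]
  have h1 : (↑((List.insertionSort (· ≥ ·) (List.ofFn α)).filter (fun k => k ≠ 0)) : Multiset ℕ) =
      Multiset.filter (fun k => k ≠ 0) (↑(List.insertionSort (· ≥ ·) (List.ofFn α)) : Multiset ℕ) := by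
    rw [Multiset.filter_coe]
  rw [h1]
  congr 1
  have h2 : (↑(List.insertionSort (· ≥ ·) (List.ofFn α)) : Multiset ℕ) = ↑(List.ofFn α) :=
    Multiset.coe_eq_coe.2 (List.perm_insertionSort _ _)
  rw [h2, Fin.univ_val_map]

theorem x_inj (n : ℕ) : Function.Injective (x n) := by
  intro i j h
  unfold x at h
  exact MvPolynomial.X_injective (IsFractionRing.injective (MvPolynomial (Fin n) Coef) (K n) h)

theorem VV_mul_prod {n : ℕ} (α : Fin n → ℕ) :
    R80HL.VV (x n) * ∏ i, ∏ j, (if α j < α i then (x n i - (-1) * x n j) / (x n i - x n j) else 1) =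
      R80HL.GG α (x n) := by
  set f : Fin n → Fin n → K n := fun i j =>
    if α i < α j then (x n j - (-1) * x n i) / (x n j - x n i) else 1 with hf
  have h1 : ∏ i, ∏ j, (if α j < α i then (x n i - (-1) * x n j) / (x n i - x n j) else 1) =
      ∏ i, ∏ j ∈ {i}ᶜ, f j i := by
    refine Finset.prod_congr rfl fun i _ => ?_
    rw [← Finset.prod_mul_prod_compl {i}, Finset.prod_singleton, if_neg (lt_irrefl _), one_mul]
  rw [h1, ← Finset.prod_prod_Ioi_mul_eq_prod_prod_off_diag, R80HL.VV, R80HL.GG, ← Finset.prod_mul_distrib]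
  refine Finset.prod_congr rfl fun i _ => ?_
  rw [← Finset.prod_mul_distrib]
  refine Finset.prod_congr rfl fun j hj => ?_
  rw [Finset.mem_Ioi] at hj
  have hne : x n i - x n j ≠ 0 := sub_ne_zero.2 fun h => (ne_of_lt hj) (x_inj n h)
  have hne' : x n j - x n i ≠ 0 := sub_ne_zero.2 fun h => (ne_of_gt hj) (x_inj n h)
  rw [hf]
  unfold R80HL.gg
  simp only
  rcases lt_trichotomy (α i) (α j) with h | h | h
  · rw [if_neg (by omega), if_pos h, if_neg (by omega), if_neg (by omega), one_mul]
    field_simp
    ring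
  · rw [if_neg (by omega), if_neg (by omega), if_pos h]; ring
  · rw [if_pos h, if_neg (by omega), if_neg (by omega), if_pos h, mul_one]
    field_simp
    ring

theorem w_eq (n : ℕ) : w n = R80HL.Ws a b c d (x n) := by
  ext m
  rw [w, R80HL.Ws, coeff_mk, coeff_mk]
  have hV : R80HL.VV (x n) ≠ 0 := R80HL.VV_ne_zero _ (x_inj n)
  apply mul_left_cancel₀ hV
  rw [← R80HL.WW_eval, R80HL.NN, Finset.mul_sum]
  have h1 : ∀ lam : Nat.Partition m, R80HL.VV (x n) * (algebraMap Coef (K n) (omega lam) * HL n lam (-1)) =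
      ∑ α ∈ Finset.Nat.antidiagonalTuple n m,
        if ((Finset.univ : Finset (Fin n)).val.map α).filter (fun k => k ≠ 0) = lam.parts then
          algebraMap Coef (K n) (R80HL.omF a b c d α) * (∏ i, x n i ^ α i) * R80HL.GG α (x n) else 0 := by
    intro lam
    rw [HL, arrangements, Finset.sum_filter, Finset.mul_sum, Finset.mul_sum]
    refine Finset.sum_congr rfl fun α _ => ?_
    split_ifs with h
    · rw [← VV_mul_prod, omega_eq lam α h]; ring
    · ring
  simp_rw [h1]
  rw [Finset.sum_comm]
  refine Finset.sum_congr rfl fun α hα => ?_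
  rw [Finset.Nat.mem_antidiagonalTuple] at hα
  have hs : ((Finset.univ : Finset (Fin n)).val.map α).sum = m := hα
  rw [Finset.sum_eq_single (Nat.Partition.ofSums m _ hs)]
  · exact if_pos (by simp [Nat.Partition.ofSums])
  · intro lam _ hne
    rw [if_neg]
    intro h
    apply hne
    ext1
    exact h.symm
  · intro h; exact absurd (Finset.mem_univ _) h

theorem corr_eq (n : ℕ) : corr n = R80HL.Ks a b c d (x n) := by
  ext m
  rw [corr, R80HL.Ks, coeff_mk, coeff_mk, R80HL.kap]
  by_cases hm : Even m ∧ m ≠ 0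
  · have hm' : ¬ (m = 0 ∨ ¬ Even m) := by tauto
    rw [if_pos hm, if_neg hm', p]
    congr 2
    obtain ⟨⟨h, hh⟩, _⟩ := hm
    have e1 : m / 2 = h := by omega
    have e2 : (2 * (h : ℚ)) = (m : ℚ) := by rw [hh]; push_cast; ring
    rw [corrCoeff, e1, e2]
  · have hm' : m = 0 ∨ ¬ Even m := by tauto
    rw [if_neg hm, if_pos hm']
    simp

/-- For every degree `m` the homogeneous component of degree `m` of `L` is a polynomial in the
odd power sums, the same polynomial for every number `n` of variables. -/
theorem result : ∀ m : ℕ, ∃ G : MvPolynomial {k : ℕ // Odd k} Coef, ∀ n : ℕ,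
    PowerSeries.coeff m (L n) = MvPolynomial.aeval (fun k : {k : ℕ // Odd k} => p n k) G := by
  intro m
  obtain ⟨G, hG⟩ := R80HL.main a b c d m
  refine ⟨G, fun n => ?_⟩
  have h := hG (K n) n (x n)
  rw [L, w_eq, corr_eq]
  exact h

end Pool.Agent.Results.MP_f6dccc_co.HallLittlewoodMinusOne
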